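import Pool.Agent.H56.KAL.Stmts

set_option autoImplicit false

namespace Pool.KAL

open Finset Real

namespace RMN

/-- Specialisation of the first variable. -/
noncomputable def slice (n : ℕ) (P : MvPolynomial (Fin (n + 1)) ℝ) (c : ℝ) :
    MvPolynomial (Fin n) ℝ :=
  Polynomial.eval (MvPolynomial.C c) (MvPolynomial.finSuccEquiv ℝ n P)

/-- The one variable polynomial obtained by fixing the last variables. -/
noncomputable def line (n : ℕ) (P : MvPolynomial (Fin (n + 1)) ℝ) (s : Fin n → ℝ) :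
    Polynomial ℝ :=
  Polynomial.map (MvPolynomial.eval s) (MvPolynomial.finSuccEquiv ℝ n P)

theorem eval_line (n : ℕ) (P : MvPolynomial (Fin (n + 1)) ℝ) (c : ℝ) (s : Fin n → ℝ) :
    (line n P s).eval c = MvPolynomial.eval (Fin.cons c s : Fin (n + 1) → ℝ) P := by
  rw [line, MvPolynomial.eval_eq_eval_mv_eval']

theorem eval_slice (n : ℕ) (P : MvPolynomial (Fin (n + 1)) ℝ) (c : ℝ) (s : Fin n → ℝ) :
    MvPolynomial.eval s (slice n P c) = MvPolynomial.eval (Fin.cons c s : Fin (n + 1) → ℝ) P := by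
  rw [MvPolynomial.eval_eq_eval_mv_eval', slice, ← Polynomial.eval₂_hom, Polynomial.eval_map,
    MvPolynomial.eval_C]

theorem degreeOf_slice (n : ℕ) (P : MvPolynomial (Fin (n + 1)) ℝ) (c : ℝ) (k : ℕ)
    (h : ∀ i, P.degreeOf i ≤ k) (j : Fin n) : (slice n P c).degreeOf j ≤ k := by
  rw [slice, Polynomial.eval_eq_sum_range]
  refine (MvPolynomial.degreeOf_sum_le j _ _).trans ?_
  refine Finset.sup_le fun i _ => ?_
  rw [← MvPolynomial.C_pow, mul_comm]
  refine (MvPolynomial.degreeOf_C_mul_le _ _ _).trans ?_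
  exact (MvPolynomial.degreeOf_coeff_finSuccEquiv P j i).trans (h j.succ)

theorem natDegree_line (n : ℕ) (P : MvPolynomial (Fin (n + 1)) ℝ) (s : Fin n → ℝ) (k : ℕ)
    (h : ∀ i, P.degreeOf i ≤ k) : (line n P s).natDegree ≤ k := by
  rw [line]
  refine Polynomial.natDegree_map_le.trans ?_
  rw [MvPolynomial.natDegree_finSuccEquiv]
  exact h 0

/-- Many large slices. -/
theorem many_slices (n N : ℕ) (A : Finset (Fin (n + 1) → Fin N)) (ρ : ℝ) (hρ : 0 < ρ)
    (hN : 1 ≤ N) (hA : ρ * (N : ℝ) ^ (n + 1) ≤ A.card) :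
    ρ / 2 * N ≤ ((univ.filter fun a : Fin N => ρ / 2 * (N : ℝ) ^ n ≤
      ((univ.filter fun x : Fin n → Fin N => (Fin.cons a x : Fin (n + 1) → Fin N) ∈ A).card : ℝ)
        ).card : ℝ) := by
  classical
  set g : Fin N → ℝ := fun a =>
    ((univ.filter fun x : Fin n → Fin N => (Fin.cons a x : Fin (n + 1) → Fin N) ∈ A).card : ℝ)
    with hg
  set G := univ.filter fun a : Fin N => ρ / 2 * (N : ℝ) ^ n ≤ g a with hG
  have hNp : (0 : ℝ) < N := by exact_mod_cast hN
  have hNn : (0 : ℝ) < (N : ℝ) ^ n := pow_pos hNp n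
  have h1 : (A.card : ℝ) ≤ ∑ a : Fin N, g a := by
    have e : A.card = ∑ a : Fin N, (A.filter fun x => x 0 = a).card :=
      Finset.card_eq_sum_card_fiberwise fun x _ => Finset.mem_coe.2 (Finset.mem_univ _)
    rw [e]
    push_cast
    refine Finset.sum_le_sum fun a _ => ?_
    rw [hg]
    simp only [Nat.cast_le]
    refine Finset.card_le_card_of_injOn (fun x => Fin.tail x) ?_ ?_
    · intro x hx
      have hx' := Finset.mem_filter.1 (Finset.mem_coe.1 hx)
      refine Finset.mem_coe.2 (Finset.mem_filter.2 ⟨Finset.mem_univ _, ?_⟩)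
      rw [← hx'.2, Fin.cons_self_tail]
      exact hx'.1
    · intro x hx y hy hxy
      have hx' := Finset.mem_filter.1 (Finset.mem_coe.1 hx)
      have hy' := Finset.mem_filter.1 (Finset.mem_coe.1 hy)
      rw [← Fin.cons_self_tail x, ← Fin.cons_self_tail y, hx'.2, hy'.2]
      simp only at hxy
      rw [hxy]
  have h2 : ∀ a, g a ≤ (N : ℝ) ^ n := by
    intro a
    rw [hg]
    have := Finset.card_le_univ
      (univ.filter fun x : Fin n → Fin N => (Fin.cons a x : Fin (n + 1) → Fin N) ∈ A)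
    have e2 : Fintype.card (Fin n → Fin N) = N ^ n := by simp
    rw [e2] at this
    show ((univ.filter fun x : Fin n → Fin N =>
      (Fin.cons a x : Fin (n + 1) → Fin N) ∈ A).card : ℝ) ≤ (N : ℝ) ^ n
    exact_mod_cast this
  have h3 : ∑ a : Fin N, g a ≤ G.card * (N : ℝ) ^ n + N * (ρ / 2 * (N : ℝ) ^ n) := by
    rw [← Finset.sum_filter_add_sum_filter_not univ (fun a => ρ / 2 * (N : ℝ) ^ n ≤ g a)]
    refine add_le_add ?_ ?_
    · refine (Finset.sum_le_card_nsmul _ _ _ fun a _ => h2 a).trans ?_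
      rw [nsmul_eq_mul]
    · refine (Finset.sum_le_card_nsmul _ _ (ρ / 2 * (N : ℝ) ^ n) fun a ha => ?_).trans ?_
      · exact (not_le.1 (Finset.mem_filter.1 ha).2).le
      · rw [nsmul_eq_mul]
        refine mul_le_mul_of_nonneg_right ?_ (by positivity)
        have := Finset.card_le_univ
          (univ.filter fun a : Fin N => ¬ ρ / 2 * (N : ℝ) ^ n ≤ g a)
        rw [Fintype.card_fin] at this
        exact_mod_cast this
  have h4 : ρ * (N : ℝ) ^ (n + 1) ≤ G.card * (N : ℝ) ^ n + N * (ρ / 2 * (N : ℝ) ^ n) :=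
    hA.trans (h1.trans h3)
  have h5 : ρ / 2 * N * (N : ℝ) ^ n ≤ G.card * (N : ℝ) ^ n := by
    rw [pow_succ] at h4
    nlinarith
  exact le_of_mul_le_mul_right h5 hNn

end RMN

open RMN in
theorem rmn_thm (hR : RMGStmt) : RMNStmt := by
  classical
  intro n
  induction n with
  | zero =>
    intro k
    refine ⟨1, le_rfl, ?_⟩
    intro N P ρ R M _ hρ hρ1 _ hR1 hM hA y _
    have hpos : (0 : ℝ) < ((univ.filter fun x : Fin 0 → Fin N =>
        |MvPolynomial.eval (fun i => ((x i : ℕ) : ℝ)) P| ≤ M).card : ℝ) := by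
      refine lt_of_lt_of_le ?_ hA
      simpa using hρ
    obtain ⟨x, hx⟩ := Finset.card_pos.1 (Nat.cast_pos.1 hpos)
    have hx' := (Finset.mem_filter.1 hx).2
    have e : y = fun i => ((x i : ℕ) : ℝ) := funext fun i => i.elim0
    rw [e]
    refine hx'.trans ?_
    have h1 : (1 : ℝ) ≤ R / ρ := by
      rw [le_div_iff₀ hρ]
      linarith
    push_cast
    rw [one_mul, pow_one]
    nlinarith
  | succ n ih =>
    intro k
    obtain ⟨c, hc1, hc⟩ := ih k
    set D : ℕ := (k + 1) * (16 * (k + 1)) ^ k * c * 2 ^ c + 4 * (k + 1) + c + k with hD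
    refine ⟨D, by omega, ?_⟩
    intro N P ρ R M hdeg hρ hρ1 hN hR1 hM hA y hy
    have hρD : (0 : ℝ) < ρ ^ D := pow_pos hρ D
    have hD1 : (1 : ℝ) ≤ D := by
      have : 1 ≤ D := by omega
      exact_mod_cast this
    have hNp : (0 : ℝ) < N := by
      by_contra hcon
      have : (N : ℝ) ≤ 0 := not_lt.1 hcon
      nlinarith
    have hN1 : 1 ≤ N := by exact_mod_cast hNp
    have hRρ : (1 : ℝ) ≤ R / ρ := by
      rw [le_div_iff₀ hρ]
      linarith
    -- the two size conditions
    have hcD : c * 2 ^ c ≤ D := by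
      have h1 : 1 ≤ (k + 1) * (16 * (k + 1)) ^ k := Nat.one_le_iff_ne_zero.2 (by positivity)
      have h2 : c * 2 ^ c ≤ (k + 1) * (16 * (k + 1)) ^ k * (c * 2 ^ c) :=
        Nat.le_mul_of_pos_left _ h1
      rw [← mul_assoc] at h2
      omega
    have hcN : (c : ℝ) ≤ (ρ / 2) ^ c * N := by
      have h1 : ρ ^ D ≤ ρ ^ c := pow_le_pow_of_le_one hρ.le hρ1 (by omega)
      have h2 : (D : ℝ) ≤ ρ ^ c * N :=
        hN.trans (mul_le_mul_of_nonneg_right h1 hNp.le)
      have h3 : (c : ℝ) * 2 ^ c ≤ D := by exact_mod_cast hcD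
      rw [div_pow, div_mul_eq_mul_div, le_div_iff₀ (by positivity)]
      exact h3.trans h2
    have hk4 : 4 * ((k : ℝ) + 1) ≤ ρ * N := by
      have h1 : ρ ^ D ≤ ρ ^ 1 := pow_le_pow_of_le_one hρ.le hρ1 (by omega)
      have h2 : (D : ℝ) ≤ ρ ^ 1 * N :=
        hN.trans (mul_le_mul_of_nonneg_right h1 hNp.le)
      have h3 : 4 * ((k : ℝ) + 1) ≤ D := by
        have : 4 * (k + 1) ≤ D := by omega
        exact_mod_cast this
      rw [pow_one] at h2
      exact h3.trans h2
    -- slices
    set A := univ.filter fun x : Fin (n + 1) → Fin N =>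
      |MvPolynomial.eval (fun i => ((x i : ℕ) : ℝ)) P| ≤ M with hAdef
    have hsl := many_slices n N A ρ hρ hN1 hA
    set G := univ.filter fun a : Fin N => ρ / 2 * (N : ℝ) ^ n ≤
      ((univ.filter fun x : Fin n → Fin N => (Fin.cons a x : Fin (n + 1) → Fin N) ∈ A).card : ℝ)
      with hG
    set M' : ℝ := c * (R / (ρ / 2)) ^ c * M with hM'
    -- the bound on good slices
    have hslice : ∀ a ∈ G, |MvPolynomial.eval (Fin.cons ((a : ℕ) : ℝ) (Fin.tail y) :
        Fin (n + 1) → ℝ) P| ≤ M' := by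
      intro a ha
      rw [← eval_slice]
      refine hc N (slice n P ((a : ℕ) : ℝ)) (ρ / 2) R M
        (degreeOf_slice n P _ k hdeg) (by positivity) (by linarith) hcN hR1 hM ?_
        (Fin.tail y) (fun i => hy i.succ)
      refine (Finset.mem_filter.1 ha).2.trans ?_
      rw [Nat.cast_le]
      refine Finset.card_le_card fun x hx => ?_
      have hx1 := (Finset.mem_filter.1 (Finset.mem_filter.1 hx).2).2
      refine Finset.mem_filter.2 ⟨Finset.mem_univ _, ?_⟩
      rw [eval_slice]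
      have e : (Fin.cons ((a : ℕ) : ℝ) (fun i => ((x i : ℕ) : ℝ)) : Fin (n + 1) → ℝ) =
          fun i => (((Fin.cons a x : Fin (n + 1) → Fin N) i : ℕ) : ℝ) := by
        funext i
        refine Fin.cases ?_ (fun j => ?_) i
        · simp
        · simp
      rw [e]
      exact hx1
    -- one variable
    set s : ℕ := ⌊ρ * N / (4 * (k + 1))⌋₊ with hs
    have hx1 : (1 : ℝ) ≤ ρ * N / (4 * (k + 1)) := by
      rw [le_div_iff₀ (by positivity)]
      linarith
    have hs1 : 1 ≤ s := Nat.one_le_iff_ne_zero.2 (by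
      have : 0 < s := Nat.floor_pos.2 hx1
      omega)
    have hsle : (s : ℝ) ≤ ρ * N / (4 * (k + 1)) := Nat.floor_le (by positivity)
    have hsge : ρ * N / (8 * (k + 1)) ≤ s := by
      have h1 : ρ * N / (4 * (k + 1)) < s + 1 := Nat.lt_floor_add_one _
      have h2 : (1 : ℝ) ≤ s := by exact_mod_cast hs1
      have h3 : ρ * N / (8 * (k + 1)) = ρ * N / (4 * (k + 1)) / 2 := by
        field_simp
        ring
      rw [h3]
      linarith
    set E : Finset ℤ := G.image fun a : Fin N => ((a : ℕ) : ℤ) with hE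
    have hEcard : E.card = G.card := by
      refine Finset.card_image_of_injective _ fun a b hab => ?_
      have : (a : ℕ) = (b : ℕ) := by exact_mod_cast hab
      exact Fin.ext this
    have hcard : s * k + 1 ≤ E.card := by
      rw [hEcard]
      have h1 : ((s * k + 1 : ℕ) : ℝ) ≤ G.card := by
        refine le_trans ?_ hsl
        push_cast
        have h2 : (s : ℝ) * (4 * (k + 1)) ≤ ρ * N := by
          rwa [le_div_iff₀ (by positivity)] at hsle
        have hs0 : (0 : ℝ) ≤ s := Nat.cast_nonneg s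
        have hk0 : (0 : ℝ) ≤ k := Nat.cast_nonneg k
        nlinarith
      exact_mod_cast h1
    have key := hR k s (line n P (Fin.tail y)) E (y 0) (2 * R * N) M'
      (natDegree_line n P _ k hdeg) hs1 hcard ?_ ?_
    · have e : (line n P (Fin.tail y)).eval (y 0) = MvPolynomial.eval y P := by
        rw [eval_line, Fin.cons_self_tail]
      rw [e] at key
      refine key.trans ?_
      -- numerical estimate
      have hsp : (0 : ℝ) < s := by exact_mod_cast hs1
      have hB : 2 * R * N / s ≤ 16 * (k + 1) * (R / ρ) := by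
        rw [div_le_iff₀ hsp]
        have h1 : 16 * ((k : ℝ) + 1) * (R / ρ) * (ρ * N / (8 * (k + 1))) ≤
            16 * (k + 1) * (R / ρ) * s :=
          mul_le_mul_of_nonneg_left hsge (by positivity)
        have h2 : 16 * ((k : ℝ) + 1) * (R / ρ) * (ρ * N / (8 * (k + 1))) = 2 * R * N := by
          field_simp
          ring
        linarith
      have hBk : (2 * R * N / s) ^ k ≤ (16 * (k + 1) * (R / ρ)) ^ k :=
        pow_le_pow_left₀ (by positivity) hB k
      have hM'0 : 0 ≤ M' := by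
        rw [hM']
        positivity
      have hfin : ((k : ℝ) + 1) * (2 * R * N / s) ^ k * M' ≤
          ((k : ℝ) + 1) * (16 * (k + 1) * (R / ρ)) ^ k * M' := by
        refine mul_le_mul_of_nonneg_right ?_ hM'0
        exact mul_le_mul_of_nonneg_left hBk (by positivity)
      refine hfin.trans ?_
      have hexp : ((k : ℝ) + 1) * (16 * (k + 1) * (R / ρ)) ^ k * M' =
          ((k : ℝ) + 1) * (16 * (k + 1)) ^ k * c * 2 ^ c * (R / ρ) ^ (k + c) * M := by
        rw [hM', show R / (ρ / 2) = 2 * (R / ρ) by field_simp, mul_pow, mul_pow, pow_add]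
        ring
      rw [hexp]
      refine mul_le_mul_of_nonneg_right ?_ hM
      have hcoef : ((k : ℝ) + 1) * (16 * (k + 1)) ^ k * c * 2 ^ c ≤ D := by
        have : (k + 1) * (16 * (k + 1)) ^ k * c * 2 ^ c ≤ D := by omega
        exact_mod_cast this
      have hpw : (R / ρ) ^ (k + c) ≤ (R / ρ) ^ D :=
        pow_le_pow_right₀ hRρ (by omega)
      exact mul_le_mul hcoef hpw (by positivity) (by positivity)
    · intro e he
      obtain ⟨a, _, rfl⟩ := Finset.mem_image.1 he
      have h1 := hy 0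
      have h2 : ((((a : ℕ) : ℤ)) : ℝ) = ((a : ℕ) : ℝ) := by push_cast; rfl
      rw [h2]
      have h3 : ((a : ℕ) : ℝ) ≤ N := by exact_mod_cast a.2.le
      have h4 : (0 : ℝ) ≤ ((a : ℕ) : ℝ) := Nat.cast_nonneg _
      have h5 : |y 0 - ((a : ℕ) : ℝ)| ≤ |y 0| + |((a : ℕ) : ℝ)| := abs_sub _ _
      rw [abs_of_nonneg h4] at h5
      nlinarith
    · intro e he
      obtain ⟨a, ha, rfl⟩ := Finset.mem_image.1 he
      have h2 : ((((a : ℕ) : ℤ)) : ℝ) = ((a : ℕ) : ℝ) := by push_cast; rfl
      rw [h2, eval_line]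
      exact hslice a ha

end Pool.KAL
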